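import Pool.Agent.Y520.AF.Stm

/-!
Project AF (MP_d21f85_gt): no self-intersections near the core.
-/

set_option autoImplicit false

namespace Pool.Agent.Y429.AF

open Real Filter Topology
open scoped ContDiff
open Pool.Agent.Y520.AF

theorem D_per_int {D : ℝ → E3} (h : ∀ x, D (x + π) = -D x) (k : ℤ) :
    ∃ ε : ℝ, ((ε = 1 ∧ Even k) ∨ ε = -1) ∧ ∀ y, D (y + k * π) = ε • D y := by
  have h2 : Function.Periodic D (2 * π) := by
    intro x
    have e : x + 2 * π = x + π + π := by ring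
    rw [e, h, h, neg_neg]
  rcases Int.even_or_odd' k with ⟨j, hj | hj⟩
  · refine ⟨1, Or.inl ⟨rfl, ⟨j, by omega⟩⟩, ?_⟩
    intro y
    have := h2.int_mul j y
    have e : y + (k : ℝ) * π = y + (j : ℝ) * (2 * π) := by rw [hj]; push_cast; ring
    rw [e, this, one_smul]
  · refine ⟨-1, Or.inr rfl, ?_⟩
    intro y
    have := h2.int_mul j (y + π)
    have e : y + (k : ℝ) * π = y + π + (j : ℝ) * (2 * π) := by rw [hj]; push_cast; ring
    rw [e, this, h, neg_one_smul]

theorem t_INJ : S_INJ := by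
  intro r D ρ h hD
  have rper : ∀ (n : ℤ) (x : ℝ), r (x + n * π) = r x := by
    intro n x
    have : Function.Periodic r π := hD.r_per
    exact this.int_mul n x
  by_contra hcon
  push Not at hcon
  have hseq : ∀ n : ℕ, ∃ (s : ℝ) (p : ℝ × ℝ), |s| < 1 / ((n : ℝ) + 1) ∧ s ≠ 0 ∧
      p ∈ Set.Icc 0 (2 * π) ×ˢ Set.Icc 0 (2 * π) ∧ r p.1 + s • D p.1 = r p.2 + s • D p.2 ∧
      ∀ m : ℤ, p.2 ≠ p.1 + m * (2 * π) := by
    intro n
    obtain ⟨s, hs, x, y, hxy, hs0, hne⟩ := hcon (1 / ((n : ℝ) + 1)) (by positivity)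
    obtain ⟨a, ha, -⟩ := existsUnique_sub_zsmul_mem_Ico two_pi_pos x 0
    obtain ⟨b, hb, -⟩ := existsUnique_sub_zsmul_mem_Ico two_pi_pos y 0
    simp only [zsmul_eq_mul, zero_add] at ha hb
    refine ⟨s, (x - a * (2 * π), y - b * (2 * π)), hs, hs0, ⟨⟨ha.1, ha.2.le⟩, ⟨hb.1, hb.2.le⟩⟩, ?_, ?_⟩
    · have h2 : Function.Periodic D (2 * π) := by
        intro x
        have e : x + 2 * π = x + π + π := by ring
        rw [e, hD.D_per, hD.D_per, neg_neg]
      have h3 : Function.Periodic r (2 * π) := by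
        intro x
        have e : x + 2 * π = x + π + π := by ring
        rw [e, hD.r_per, hD.r_per]
      have e1 : r (x - a * (2 * π)) = r x := h3.sub_int_mul_eq a
      have e2 : D (x - a * (2 * π)) = D x := h2.sub_int_mul_eq a
      have e3 : r (y - b * (2 * π)) = r y := h3.sub_int_mul_eq b
      have e4 : D (y - b * (2 * π)) = D y := h2.sub_int_mul_eq b
      show r (x - a * (2 * π)) + s • D (x - a * (2 * π)) = r (y - b * (2 * π)) + s • D (y - b * (2 * π))
      rw [e1, e2, e3, e4]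
      exact hxy
    · intro m hm
      apply hne (m + b - a)
      have hm' : y - b * (2 * π) = x - a * (2 * π) + m * (2 * π) := hm
      push_cast
      linarith
  choose s p hs hs0 hp hpq hne using hseq
  obtain ⟨q, _, φ, hφ, hlim⟩ := (isCompact_Icc.prod isCompact_Icc).tendsto_subseq hp
  have hst : Tendsto s atTop (𝓝 0) := by
    apply squeeze_zero_norm (fun n => (hs n).le)
    exact tendsto_one_div_add_atTop_nhds_zero_nat
  have hst' : Tendsto (s ∘ φ) atTop (𝓝 0) := hst.comp hφ.tendsto_atTop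
  have hx : Tendsto (fun n => (p (φ n)).1) atTop (𝓝 q.1) := (continuous_fst.tendsto q).comp hlim
  have hy : Tendsto (fun n => (p (φ n)).2) atTop (𝓝 q.2) := (continuous_snd.tendsto q).comp hlim
  have hrc : Continuous r := hD.r_smooth.continuous
  have hDc : Continuous D := hD.D_smooth.continuous
  have hreq : r q.1 = r q.2 := by
    have l1 : Tendsto (fun n => r (p (φ n)).1 + (s ∘ φ) n • D (p (φ n)).1) atTop
        (𝓝 (r q.1 + (0:ℝ) • D q.1)) :=
      ((hrc.tendsto _).comp hx).add (hst'.smul ((hDc.tendsto _).comp hx))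
    have l2 : Tendsto (fun n => r (p (φ n)).2 + (s ∘ φ) n • D (p (φ n)).2) atTop
        (𝓝 (r q.2 + (0:ℝ) • D q.2)) :=
      ((hrc.tendsto _).comp hy).add (hst'.smul ((hDc.tendsto _).comp hy))
    have l3 : (fun n => r (p (φ n)).1 + (s ∘ φ) n • D (p (φ n)).1) =
        fun n => r (p (φ n)).2 + (s ∘ φ) n • D (p (φ n)).2 := by
      funext n
      exact hpq (φ n)
    rw [l3] at l1
    have := tendsto_nhds_unique l1 l2
    simpa using this
  obtain ⟨k, hk⟩ := hD.inj q.1 q.2 hreq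
  obtain ⟨ε, hε, hDk⟩ := D_per_int hD.D_per k
  -- the map
  obtain ⟨Φ, hΦ⟩ : ∃ Φ : ℝ × ℝ → E3, Φ = fun z => r z.2 + z.1 • D z.2 := ⟨_, rfl⟩
  have hΦs : ContDiff ℝ ∞ Φ := by
    rw [hΦ]
    exact (hD.r_smooth.comp contDiff_snd).add (contDiff_fst.smul (hD.D_smooth.comp contDiff_snd))
  have hstrict : HasStrictFDerivAt Φ (fderiv ℝ Φ (0, q.1)) (0, q.1) :=
    hΦs.contDiffAt.hasStrictFDerivAt (by simp)
  have hval : ∀ a b : ℝ, fderiv ℝ Φ (0, q.1) (a, b) = a • D q.1 + b • deriv r q.1 := by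
    intro a b
    have hr1 : HasFDerivAt (fun z : ℝ × ℝ => r z.2)
        ((ContinuousLinearMap.toSpanSingleton ℝ (deriv r q.1)).comp
          (ContinuousLinearMap.snd ℝ ℝ ℝ)) (0, q.1) := by
      have h1 : HasDerivAt r (deriv r q.1) q.1 :=
        (hD.r_smooth.differentiable (by simp)).differentiableAt.hasDerivAt
      exact HasFDerivAt.comp (0, q.1) h1.hasFDerivAt hasFDerivAt_snd
    have hD1 : HasFDerivAt (fun z : ℝ × ℝ => D z.2)
        ((ContinuousLinearMap.toSpanSingleton ℝ (deriv D q.1)).comp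
          (ContinuousLinearMap.snd ℝ ℝ ℝ)) (0, q.1) := by
      have h1 : HasDerivAt D (deriv D q.1) q.1 :=
        (hD.D_smooth.differentiable (by simp)).differentiableAt.hasDerivAt
      exact HasFDerivAt.comp (0, q.1) h1.hasFDerivAt hasFDerivAt_snd
    have hf1 : HasFDerivAt (fun z : ℝ × ℝ => z.1) (ContinuousLinearMap.fst ℝ ℝ ℝ) (0, q.1) :=
      hasFDerivAt_fst
    have h2 := hr1.add (hf1.smul hD1)
    have h3 : HasFDerivAt Φ ((ContinuousLinearMap.toSpanSingleton ℝ (deriv r q.1)).comp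
          (ContinuousLinearMap.snd ℝ ℝ ℝ) + ((0:ℝ) • (ContinuousLinearMap.toSpanSingleton ℝ
          (deriv D q.1)).comp (ContinuousLinearMap.snd ℝ ℝ ℝ) +
          (ContinuousLinearMap.fst ℝ ℝ ℝ).smulRight (D q.1))) (0, q.1) := by
      rw [hΦ]; exact h2
    rw [h3.fderiv]
    simp
    abel
  have hker : LinearMap.ker (fderiv ℝ Φ (0, q.1) : ℝ × ℝ →ₗ[ℝ] E3) = ⊥ := by
    rw [LinearMap.ker_eq_bot']
    rintro ⟨a, b⟩ hab
    have hab' : a • D q.1 + b • deriv r q.1 = (0 : E3) := by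
      rw [← hval]; exact hab
    have h1 : ‖a • D q.1 + b • deriv r q.1‖ ^ 2 = 0 := by rw [hab']; simp
    rw [norm_add_sq_real, norm_smul, norm_smul, mul_pow, mul_pow, hD.norm_D, hD.norm_r,
      inner_smul_left, inner_smul_right, hD.inner_D] at h1
    simp only [Real.norm_eq_abs, sq_abs, conj_trivial] at h1
    have h2 : a ^ 2 + (a * h q.1 + b * ρ q.1) ^ 2 = 0 := by
      rw [← h1]; ring
    have ha : a = 0 := by nlinarith [sq_nonneg a, sq_nonneg (a * h q.1 + b * ρ q.1)]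
    have hb : b = 0 := by
      rw [ha] at h2
      have h3 : b * ρ q.1 = 0 := by nlinarith [sq_nonneg (b * ρ q.1)]
      exact (mul_eq_zero.1 h3).resolve_right (hD.ρ_pos q.1).ne'
    rw [ha, hb]; rfl
  obtain ⟨K, hK, hanti⟩ := LinearMap.exists_antilipschitzWith _ hker
  -- local injectivity
  have hK' : (0 : ℝ) < K := hK
  obtain ⟨U, hU, happ⟩ := hstrict.approximates_deriv_on_nhds
    (c := (K⁻¹ / 2)) (Or.inr (by positivity))
  have hinj : ∀ z ∈ U, ∀ w ∈ U, Φ z = Φ w → z = w := by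
    intro z hz w hw hzw
    have h1 := happ z hz w hw
    rw [hzw, sub_self, zero_sub, norm_neg] at h1
    have h2 : ‖z - w‖ ≤ K * ‖fderiv ℝ Φ (0, q.1) (z - w)‖ := by
      have := hanti.le_mul_dist z w
      rw [dist_eq_norm, dist_eq_norm, ← map_sub] at this
      exact this
    have h3 : K * ‖fderiv ℝ Φ (0, q.1) (z - w)‖ ≤ K * (((K⁻¹ / 2 : NNReal) : ℝ) * ‖z - w‖) :=
      mul_le_mul_of_nonneg_left h1 hK'.le
    have h4 : (K : ℝ) * (((K⁻¹ / 2 : NNReal) : ℝ) * ‖z - w‖) = ‖z - w‖ / 2 := by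
      push_cast
      field_simp
    have h5 : ‖z - w‖ ≤ ‖z - w‖ / 2 := by
      rw [← h4]; exact h2.trans h3
    have h6 : ‖z - w‖ = 0 := by linarith [norm_nonneg (z - w)]
    exact sub_eq_zero.1 (norm_eq_zero.1 h6)
  -- the two points
  have ht1 : Tendsto (fun n => (s (φ n), (p (φ n)).1)) atTop (𝓝 ((0 : ℝ), q.1)) :=
    hst'.prodMk_nhds hx
  have ht2 : Tendsto (fun n => (ε * s (φ n), (p (φ n)).2 - k * π)) atTop (𝓝 ((0 : ℝ), q.1)) := by
    have h1 : Tendsto (fun n => ε * s (φ n)) atTop (𝓝 0) := by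
      have := hst'.const_mul ε
      rwa [mul_zero] at this
    have h2 : Tendsto (fun n => (p (φ n)).2 - k * π) atTop (𝓝 q.1) := by
      have := hy.sub_const (k * π)
      rw [hk] at this
      simpa using this
    exact h1.prodMk_nhds h2
  obtain ⟨n, hn1, hn2⟩ := ((ht1.eventually hU).and (ht2.eventually hU)).exists
  have hΦeq : Φ (s (φ n), (p (φ n)).1) = Φ (ε * s (φ n), (p (φ n)).2 - k * π) := by
    rw [hΦ]
    show r (p (φ n)).1 + s (φ n) • D (p (φ n)).1 =
      r ((p (φ n)).2 - k * π) + (ε * s (φ n)) • D ((p (φ n)).2 - k * π)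
    rw [hpq (φ n)]
    have e1 : r (p (φ n)).2 = r ((p (φ n)).2 - k * π) := by
      have := rper k ((p (φ n)).2 - k * π)
      rw [sub_add_cancel] at this
      exact this
    have e2 : D (p (φ n)).2 = ε • D ((p (φ n)).2 - k * π) := by
      have := hDk ((p (φ n)).2 - k * π)
      rw [sub_add_cancel] at this
      exact this
    rw [e2, ← e1, smul_smul, mul_comm ε]
  have hfin := hinj _ hn1 _ hn2 hΦeq
  rw [Prod.mk.injEq] at hfin
  obtain ⟨g1, g2⟩ := hfin
  rcases hε with ⟨_, j, hj⟩ | hε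
  · apply hne (φ n) j
    have : (k : ℝ) = j + j := by rw [hj]; push_cast; ring
    rw [g2, this]; ring
  · rw [hε] at g1
    exact hs0 (φ n) (by linarith)

end Pool.Agent.Y429.AF
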