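import Pool.Agent.Y520.AF.Stm

/-!
Project AF (MP_d21f85_gt): no zero divisors; `gg` is positive and analytic.
-/

set_option autoImplicit false

namespace Pool.Agent.Y429.AF

open Real Filter Topology
open Pool.Agent.Y520.AF

theorem t_OO : S_OO := by
  intro s₀ hs₀ f g hf hg hfg
  by_cases h : ∀ p ∈ UU s₀, f p = 0
  · exact Or.inl h
  · right
    push Not at h
    obtain ⟨p₀, hp₀, hne⟩ := h
    have hU : IsOpen (UU s₀) := by
      have : UU s₀ = {p : ℝ × ℝ | |p.1| < s₀} := rfl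
      rw [this]
      exact isOpen_lt (by fun_prop) continuous_const
    have hconv : Convex ℝ (UU s₀) := by
      have e : UU s₀ = (LinearMap.fst ℝ ℝ ℝ) ⁻¹' (Set.Ioo (-s₀) s₀) := by
        ext p
        show |p.1| < s₀ ↔ p.1 ∈ Set.Ioo (-s₀) s₀
        rw [abs_lt, Set.mem_Ioo]
      rw [e]
      exact (convex_Ioo (-s₀) s₀).linear_preimage _
    have h1 : ∀ᶠ p in 𝓝 p₀, f p ≠ 0 := (hf p₀ hp₀).continuousAt.eventually_ne hne
    have h2 : g =ᶠ[𝓝 p₀] 0 := by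
      filter_upwards [h1, hU.mem_nhds hp₀] with p hp hpU
      have := hfg p hpU
      exact (mul_eq_zero.1 this).resolve_left hp
    have := hg.eqOn_zero_of_preconnected_of_eventuallyEq_zero hconv.isPreconnected hp₀ h2
    intro p hp
    exact this hp

theorem inside_pos (x : ℝ) : 0 < c0 x ^ 2 + c1 x ^ 2 + c2 x ^ 2 := by
  obtain ⟨z, hz⟩ : ∃ z, z = sin x ^ 2 := ⟨_, rfl⟩
  have hz0 : 0 ≤ z := by rw [hz]; positivity
  have hz1 : z ≤ 1 := by rw [hz]; exact sin_sq_le_one x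
  have hc : cos x ^ 2 = 1 - z := by rw [hz]; exact cos_sq' x
  have e0 : c0 x ^ 2 = 16 * (1 - z) * (3 - 8 * z + 8 * z ^ 2) ^ 2 := by
    unfold c0
    rw [← hc, hz]; ring
  have e2 : c2 x ^ 2 = 36 * z ^ 3 * (5 - 12 * z + 8 * z ^ 2) ^ 2 := by
    unfold c2
    rw [hz]; ring
  have h0 : 1 ≤ (3 - 8 * z + 8 * z ^ 2) := by nlinarith [sq_nonneg (2 * z - 1)]
  have h2 : 1 / 2 ≤ (5 - 12 * z + 8 * z ^ 2) := by nlinarith [sq_nonneg (4 * z - 3)]
  have h0' : 1 ≤ (3 - 8 * z + 8 * z ^ 2) ^ 2 := by nlinarith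
  have h2' : 1 / 4 ≤ (5 - 12 * z + 8 * z ^ 2) ^ 2 := by nlinarith
  have a0 : 16 * (1 - z) ≤ c0 x ^ 2 := by
    rw [e0]; nlinarith
  have a2 : 9 * z ^ 3 ≤ c2 x ^ 2 := by
    rw [e2]
    have : 0 ≤ z ^ 3 := by positivity
    nlinarith
  have a1 : 0 ≤ c1 x ^ 2 := sq_nonneg _
  rcases hz1.eq_or_lt with h | h
  · rw [h] at a2
    nlinarith [sq_nonneg (c0 x)]
  · have : 0 ≤ z ^ 3 := by positivity
    nlinarith

theorem analyticAt_sqrt {y : ℝ} (hy : 0 < y) : AnalyticAt ℝ Real.sqrt y := by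
  have h1 : AnalyticAt ℝ (fun t : ℝ => Real.exp (Real.log t * (1 / 2))) y :=
    ((analyticAt_log hy).mul analyticAt_const).rexp'
  refine h1.congr ?_
  filter_upwards [lt_mem_nhds hy] with t ht
  rw [Real.sqrt_eq_rpow, Real.rpow_def_of_pos ht]

theorem t_ANA : S_ANA := by
  constructor
  · intro x
    exact Real.sqrt_pos.2 (inside_pos x)
  · intro x _
    have hs : AnalyticAt ℝ Real.sin x := Real.analyticAt_sin
    have hc : AnalyticAt ℝ Real.cos x := Real.analyticAt_cos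
    have h0 : AnalyticAt ℝ c0 x := by unfold c0; fun_prop
    have h1 : AnalyticAt ℝ c1 x := by unfold c1; fun_prop
    have h2 : AnalyticAt ℝ c2 x := by unfold c2; fun_prop
    have h3 : AnalyticAt ℝ (fun x => c0 x ^ 2 + c1 x ^ 2 + c2 x ^ 2) x := by fun_prop
    exact (analyticAt_sqrt (inside_pos x)).comp_of_eq h3 rfl

end Pool.Agent.Y429.AF
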